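import Pool.Agent.H30.EqcD

/-!
STARS EQUITABLE 2-CHOOSABILITY is NP-hard.
-/

namespace Pool.Agent.Results.MP_5b98da_lc.Hard

open Pool.Agent.H38.NP Pool.Agent.H30.Eqc

theorem result : NPHard (lang fun l : List Bin => EqChoosable (stars l) 2) ∧
    NPHardOn (fun l : List Bin => l ≠ [] ∧ ∀ m ∈ l, 1 ≤ m.val)
      (fun l => EqChoosable (stars l) 2) :=
  ⟨stars_nph.npHard fun _ _ => Iff.rfl, stars_nph.npHardOn⟩

end Pool.Agent.Results.MP_5b98da_lc.Hard
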